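import Pool.Agent.Lib.MP_d71b33_lc_h17.Cnt

/-!
# Loads of the A-runs of homes and of the B-runs (MP_d71b33_lc, task CVL1)
-/

set_option autoImplicit false

namespace Pool.Agent.Bfly

open Set

variable {n : ℕ}

namespace Sys

variable (S : Sys n)

theorem CNcR (i : ℕ) : cR S.g * S.h i = 8 * (cbg S.g * S.h i) := by
  unfold cR; ring

theorem load_PAh (a : Node n) : {u | a ∈ S.PAh u}.encard ≤ 4 * S.K := by
  obtain ⟨k, hk⟩ := S.CNlev a
  obtain ⟨d, hd⟩ := S.CNexD k a.1
  have h1 : {u | a ∈ S.PAh u}.encard ≤ ((3 * (S.K * 1) : ℕ) : ℕ∞) := by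
    refine CN.enc_set (B := {β | β = d ∨ β = d - 1 ∨ β = k - 1})
      (fun β => {u | ∃ Y ∈ S.cores, S.lowW Y β u.1 ∧ u.2.val = S.lev β ∧
        β < k ∧ k ≤ β + cbg S.g * S.h Y.i ∧ k ≤ S.m ∧
        AgOut (S.lev β) (S.lev k) a.1 u.1}) ?_ ?_ ?_
    · refine CN.enc_finset {d, d - 1, k - 1} Finset.card_le_three fun β hβ => ?_
      rcases hβ with h | h | h <;> simp [h]
    · intro β _
      refine CN.enc_set (B := {Y | Y ∈ S.cores ∧ S.grid Y.i β ∧ k ≤ S.m ∧
        k ≤ (β - (csm S.g + 12) * S.h Y.i) + cR S.g * S.h Y.i ∧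
        β - (csm S.g + 12) * S.h Y.i ≤ Y.s ∧ Y.e ≤ k ∧
        AgOut (S.lev (β - (csm S.g + 12) * S.h Y.i)) (S.lev k) a.1 Y.b})
        (fun Y => {u | S.lowW Y β u.1 ∧ u.2.val = S.lev β ∧
          AgOut (S.lev β) (S.lev k) a.1 u.1}) ?_ ?_ ?_
      · exact S.CNscale β a.1 (fun i => β - (csm S.g + 12) * S.h i) (fun _ => k)
      · intro Y _
        refine CN.enc_one ?_
        rintro u ⟨⟨-, -, -, h1⟩, h2, h3⟩ v ⟨⟨-, -, -, h4⟩, h5, h6⟩
        refine node_ext (funext fun j => ?_) (h2.trans h5.symm)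
        by_cases hj : S.lev β ≤ j.val
        · rw [h1 j hj, h4 j hj]
        · rw [← h3 j (Or.inl (by omega)), ← h6 j (Or.inl (by omega))]
      · rintro u ⟨Y, hY, hlow, hul, hβk, hkβ, hkm, hag⟩
        refine ⟨Y, ?_, hlow, hul, hag⟩
        obtain ⟨h1, h2, h3, h4⟩ := hlow
        obtain ⟨z1, z2, z3⟩ := S.zone_len hY
        have hze := (S.ze_eq hY h2).1
        have hza := S.zone_arith hY
        have hlt := S.core_lt Y hY
        have hg : S.grid Y.i β := by
          rcases h1 with h1 | h1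
          · rw [h1]; exact S.core_e_grid hY h2
          · rw [h1]; exact S.grid_ze hY h2
        have hb1 : β ≤ S.ze Y := by rcases h1 with h1 | h1 <;> omega
        have hb2 : Y.e ≤ β := by rcases h1 with h1 | h1 <;> omega
        have hcR := S.CNcR Y.i
        have hcb := S.cbg_mul Y.i
        have hct := S.csm_lt_tau Y.i
        have hmul : (csm S.g + 12) * S.h Y.i = csm S.g * S.h Y.i + 12 * S.h Y.i := Nat.add_mul _ _ _
        have hp : β - (csm S.g + 12) * S.h Y.i ≤ S.zs Y := by omega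
        refine ⟨hY, hg, hkm, by omega, by omega, by omega, ?_⟩
        intro j hj
        have l1 := S.lev_mono hp (by omega)
        have l2 := S.lev_mono (k := β) (l := k) hβk.le hkm
        have l3 := S.lev_mono (k := S.zs Y) (l := β) (by omega) (by omega)
        rcases hj with hj | hj
        · rw [hag j (Or.inl (by omega))]
          exact h3 j (Or.inl (by omega))
        · rw [hag j (Or.inr hj)]
          exact h4 j (by omega)
    · rintro u ⟨Y, hY, β, hlow, hul, p, k', hp, hpk, hβk, hkβ, hkm, hak, hag, hsg⟩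
      have e := hk k' hkm hak
      subst e
      refine ⟨β, ?_, Y, hY, hlow, hul, hβk, hkβ, hkm, hag⟩
      show β = d ∨ β = d - 1 ∨ β = k' - 1
      rcases Nat.lt_or_ge p k' with h | h
      · have := hd p h hsg
        rcases hp with hp | hp
        · left; omega
        · right; left; omega
      · right; right; omega
  refine h1.trans ?_
  rw [Nat.mul_one]
  exact_mod_cast (by omega : 3 * S.K ≤ 4 * S.K)

theorem load_PB (a : Node n) : {u | a ∈ S.PB u}.encard ≤ 32 * S.K := by
  obtain ⟨k, hk⟩ := S.CNlev a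
  obtain ⟨d, hd⟩ := S.CNexU k a.1
  have h1 : {u | a ∈ S.PB u}.encard ≤ ((2 * (2 * (S.K * 1)) : ℕ) : ℕ∞) := by
    refine CN.enc_set (B := {q | q = k ∨ q = d})
      (fun q => {u | ∃ Y ∈ S.cores, ∃ β c, (c = csm S.g ∨ c = cbg S.g) ∧
        ((β = Y.s ∨ β = S.zs Y) ∧ Y.s ≠ 0 ∨ (β = Y.e ∨ β = S.ze Y) ∧ Y.e ≠ S.m) ∧
        S.inZ Y u.1 ∧ u.2.val = S.lev β ∧ β + c * S.h Y.i ≤ S.m ∧ q = β + c * S.h Y.i ∧
        S.InB Y (β - cbg S.g * S.h Y.i) q k u.1 a.1}) ?_ ?_ ?_
    · refine CN.enc_finset {k, d} Finset.card_le_two fun q hq => ?_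
      rcases hq with h | h <;> simp [h]
    · intro q _
      refine CN.enc_set (B := {c | c = csm S.g ∨ c = cbg S.g})
        (fun c => {u | ∃ Y ∈ S.cores, ∃ β,
          ((β = Y.s ∨ β = S.zs Y) ∧ Y.s ≠ 0 ∨ (β = Y.e ∨ β = S.ze Y) ∧ Y.e ≠ S.m) ∧
          S.inZ Y u.1 ∧ u.2.val = S.lev β ∧ β + c * S.h Y.i ≤ S.m ∧ q = β + c * S.h Y.i ∧
          S.InB Y (β - cbg S.g * S.h Y.i) q k u.1 a.1}) ?_ ?_ ?_
      · refine CN.enc_finset {csm S.g, cbg S.g} Finset.card_le_two fun q hq => ?_
        rcases hq with h | h <;> simp [h]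
      · intro c hc
        refine CN.enc_set (B := {Y | Y ∈ S.cores ∧ S.grid Y.i q ∧
          min S.m (q - c * S.h Y.i + cbg S.g * S.h Y.i) ≤ S.m ∧
          min S.m (q - c * S.h Y.i + cbg S.g * S.h Y.i) ≤
            (q - c * S.h Y.i - cbg S.g * S.h Y.i) + cR S.g * S.h Y.i ∧
          q - c * S.h Y.i - cbg S.g * S.h Y.i ≤ Y.s ∧
          Y.e ≤ min S.m (q - c * S.h Y.i + cbg S.g * S.h Y.i) ∧
          AgOut (S.lev (q - c * S.h Y.i - cbg S.g * S.h Y.i))
            (S.lev (min S.m (q - c * S.h Y.i + cbg S.g * S.h Y.i))) a.1 Y.b})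
          (fun Y => {u | ∃ β, S.inZ Y u.1 ∧ u.2.val = S.lev β ∧ q = β + c * S.h Y.i ∧
            S.InB Y (β - cbg S.g * S.h Y.i) q k u.1 a.1}) ?_ ?_ ?_
        · exact S.CNscale q a.1 (fun i => q - c * S.h i - cbg S.g * S.h i)
            (fun i => min S.m (q - c * S.h i + cbg S.g * S.h i))
        · intro Y _
          refine CN.enc_one ?_
          rintro u ⟨β, h1, h2, h3, -, -, h4⟩ v ⟨β', h1', h2', h3', -, -, h4'⟩
          have e : β = β' := by omega
          subst e
          refine node_ext (S.CNrow h1 h1' fun j hj => ?_) (h2.trans h2'.symm)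
          rw [← h4 j hj, ← h4' j hj]
        · rintro u ⟨Y, hY, β, hβ, hz, hul, hqm, hq, hB⟩
          refine ⟨Y, ?_, β, hz, hul, hq, hB⟩
          obtain ⟨z1, z2, z3⟩ := S.zone_len hY
          have hza := S.zone_arith hY
          have hlt := S.core_lt Y hY
          have hg0 : S.grid Y.i β := by
            rcases hβ with ⟨h1 | h1, h2⟩ | ⟨h1 | h1, h2⟩
            · rw [h1]; exact S.core_s_grid hY h2
            · rw [h1]; exact S.grid_zs hY h2
            · rw [h1]; exact S.core_e_grid hY h2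
            · rw [h1]; exact S.grid_ze hY h2
          have hg : S.grid Y.i q := by
            rw [hq]
            refine S.grid_add hg0 ?_
            rcases hc with h | h
            · rw [h]; exact two_dvd_csm _
            · rw [h]; exact two_dvd_cbg _
          have hb1 : β ≤ S.ze Y := by rcases hβ with ⟨h1 | h1, h2⟩ | ⟨h1 | h1, h2⟩ <;> omega
          have hb2 : S.zs Y ≤ β := by rcases hβ with ⟨h1 | h1, h2⟩ | ⟨h1 | h1, h2⟩ <;> omega
          have hcR := S.CNcR Y.i
          have hcb := S.cbg_mul Y.i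
          have hct := S.csm_lt_tau Y.i
          have hmul : (csm S.g + 12) * S.h Y.i = csm S.g * S.h Y.i + 12 * S.h Y.i :=
            Nat.add_mul _ _ _
          have hc' : c * S.h Y.i ≤ cbg S.g * S.h Y.i := by
            rcases hc with h | h
            · rw [h]; omega
            · rw [h]
          have hqβ : q - c * S.h Y.i = β := by omega
          have hp : β - cbg S.g * S.h Y.i ≤ S.zs Y := by omega
          have hp' : S.ze Y ≤ min S.m (β + cbg S.g * S.h Y.i) := le_min z3 (by omega)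
          have hpq : q ≤ min S.m (β + cbg S.g * S.h Y.i) := le_min (by omega) (by omega)
          have hmin : min S.m (β + cbg S.g * S.h Y.i) ≤ β + cbg S.g * S.h Y.i := min_le_right _ _
          refine ⟨hY, hg, ?_⟩
          rw [hqβ]
          refine ⟨min_le_left _ _, by omega, by omega, by omega, ?_⟩
          have l1 := S.lev_mono hp (by omega)
          have l2 := S.lev_mono hp' (min_le_left _ _)
          have l3 := S.lev_mono hpq (min_le_left _ _)
          refine AgOut.trans (hB.1.mono le_rfl l3) (hz.mono l1 l2)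
      · rintro u ⟨Y, hY, β, c, hc, h⟩
        exact ⟨c, hc, Y, hY, β, h⟩
    · rintro u ⟨Y, hY, β, c, hc, hβ, hz, hul, hm, k', hk1, hk2, hak, hB⟩
      have e := hk k' (by omega) hak
      subst e
      refine ⟨β + c * S.h Y.i, ?_, Y, hY, β, c, hc, hβ, hz, hul, hm, rfl, hB⟩
      show β + c * S.h Y.i = k' ∨ β + c * S.h Y.i = d
      rcases Nat.lt_or_ge k' (β + c * S.h Y.i) with h | h
      · right; exact hd _ h hB.2.1
      · left; omega
  refine h1.trans ?_
  exact_mod_cast (by omega : 2 * (2 * (S.K * 1)) ≤ 32 * S.K)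

end Sys

end Pool.Agent.Bfly
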