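import Pool.Agent.Lib.MP_d71b33_lc_h17.Cnt

/-!
# Loads of the A-runs of T-structures (MP_d71b33_lc, task CVL2)
-/

set_option autoImplicit false

namespace Pool.Agent.Bfly

open Set

variable {n : ℕ}

namespace Sys

variable (S : Sys n)

/-- special levels of a T-structure -/
theorem CNspecQ {Q : Core n} (hQ : Q ∈ S.cores) :
    {β | S.it Q ≤ β ∧ β ≤ S.ib Q ∧ S.h Q.i ∣ β + S.o}.encard ≤
      ((csm S.g + 12 + tau S.g + 1 : ℕ) : ℕ∞) :=
  CN.spec_enc (S.h Q.i) S.o (S.it Q) (S.ib Q) (csm S.g + 12 + tau S.g) (S.h_pos Q.i)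
    (S.zone_arith hQ).2.2.2.2.2.2.2.2.2.1

theorem load_PAe (a : Node n) :
    {u | a ∈ S.PAe u}.encard ≤ (S.K * (2 * (csm S.g + 14 + tau S.g) + 8) : ℕ) := by
  obtain ⟨k, hk⟩ := S.CNlev a
  obtain ⟨d, hd⟩ := S.CNexD k a.1
  have h1 : {u | a ∈ S.PAe u}.encard ≤
      ((S.K * ((csm S.g + 12 + tau S.g + 1) * 1) : ℕ) : ℕ∞) := by
    refine CN.enc_set (B := {X | X ∈ S.cores ∧ S.grid X.i d ∧ k ≤ S.m ∧
      k ≤ (d - (csm S.g + 12 + tau S.g) * S.h X.i) + cR S.g * S.h X.i ∧
      d - (csm S.g + 12 + tau S.g) * S.h X.i ≤ X.s ∧ X.e ≤ k ∧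
      AgOut (S.lev (d - (csm S.g + 12 + tau S.g) * S.h X.i)) (S.lev k) a.1 X.b})
      (fun X => {u | X ∈ S.cores ∧ S.inZ X u.1 ∧ S.special X u ∧
        (∀ j, j < S.nb X → bit a.1 (S.rb (S.tw X + j)) = bit u.1 (S.lev (S.zs X) + j))})
      ?_ ?_ ?_
    · exact S.CNscale d a.1 (fun i => d - (csm S.g + 12 + tau S.g) * S.h i) (fun _ => k)
    · intro X hX
      refine CN.enc_set (B := {β | S.it X ≤ β ∧ β ≤ S.ib X ∧ S.h X.i ∣ β + S.o})
        (fun β => {u | S.inZ X u.1 ∧ u.2.val = S.lev β ∧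
          (∀ j, j < S.nb X → bit a.1 (S.rb (S.tw X + j)) = bit u.1 (S.lev (S.zs X) + j))})
        (S.CNspecQ hX.1) ?_ ?_
      · intro β _
        refine CN.enc_one ?_
        rintro u ⟨h1, h2, h3⟩ v ⟨h1', h2', h3'⟩
        refine node_ext (S.CNrow h1 h1' fun j hj => ?_) (h2.trans h2'.symm)
        rw [← h3 j hj, ← h3' j hj]
      · rintro u ⟨-, h1, ⟨β, h2, h3, h4, h5⟩, h6⟩
        exact ⟨β, ⟨h2, h3, h4⟩, h1, h5, h6⟩
    · rintro u ⟨X, hX, hz, hsp, k', hk1, hk2, hkm, hak, hag, hsg, hrec⟩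
      have e := hk k' hkm hak
      subst e
      have e2 := hd (S.ib X) hk1 hsg
      subst e2
      refine ⟨X, ?_, hX, hz, hsp, hrec⟩
      have hza := S.zone_arith hX
      have hlt := S.core_lt X hX
      have hg := S.grid_ib hX (by omega)
      have hcR : cR S.g * S.h X.i = 8 * (cbg S.g * S.h X.i) := by unfold cR; ring
      have hcb := S.cbg_mul X.i
      have hct := S.csm_lt_tau X.i
      have hmul : (csm S.g + 12 + tau S.g) * S.h X.i =
        csm S.g * S.h X.i + 12 * S.h X.i + tau S.g * S.h X.i := by ring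
      have hp : S.ib X - (csm S.g + 12 + tau S.g) * S.h X.i ≤ S.it X := by omega
      refine ⟨hX, hg, hkm, by omega, by omega, by omega, ?_⟩
      refine AgOut.trans (hag.mono (S.lev_mono hp (by omega)) le_rfl) (hz.mono ?_ ?_)
      · exact S.lev_mono (by omega) (by omega)
      · exact S.lev_mono (by omega) hkm
  refine h1.trans ?_
  rw [Nat.mul_one]
  exact_mod_cast Nat.mul_le_mul_left S.K
    (by omega : csm S.g + 12 + tau S.g + 1 ≤ 2 * (csm S.g + 14 + tau S.g) + 8)

theorem load_PAs (a : Node n) :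
    {u | a ∈ S.PAs u}.encard ≤ (4 * S.K * S.K * (2 * (csm S.g + 14 + tau S.g) + 8) : ℕ) := by
  obtain ⟨k, hk⟩ := S.CNlev a
  obtain ⟨d, hd⟩ := S.CNexD k a.1
  have h1 : {u | a ∈ S.PAs u}.encard ≤
      (((csm S.g + 12 + tau S.g + 1) * (S.K * (S.K * 1)) : ℕ) : ℕ∞) := by
    refine CN.enc_set (B := {β | ∃ i, S.grid i d ∧ S.h i ∣ β + S.o ∧ β ≤ d ∧
        d ≤ β + (csm S.g + 12 + tau S.g) * S.h i})
      (fun β => {u | ∃ X ∈ S.cores, ∃ Y ∈ S.cores, X.i < Y.i ∧ S.inZ X u.1 ∧
        S.lowW Y β u.1 ∧ u.2.val = S.lev β ∧ S.it X ≤ β ∧ β ≤ S.ib X ∧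
        S.ib X = d ∧ d < k ∧ k ≤ β + cbg S.g * S.h Y.i ∧ k ≤ S.m ∧
        AgOut (S.lev (S.it X)) (S.lev k) a.1 u.1 ∧
        (∀ j, j < S.nb X → bit a.1 (S.rb (S.tw X + j)) = bit u.1 (S.lev (S.zs X) + j))})
      (S.CNspec d (csm S.g + 12 + tau S.g)) ?_ ?_
    · intro β _
      refine CN.enc_set (B := {Y | Y ∈ S.cores ∧ S.grid Y.i β ∧ k ≤ S.m ∧
        k ≤ (β - (csm S.g + 12) * S.h Y.i) + cR S.g * S.h Y.i ∧
        β - (csm S.g + 12) * S.h Y.i ≤ Y.s ∧ Y.e ≤ k ∧
        AgOut (S.lev (β - (csm S.g + 12) * S.h Y.i)) (S.lev k) a.1 Y.b})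
        (fun Y => {u | ∃ X ∈ S.cores, S.inZ X u.1 ∧
          S.lowW Y β u.1 ∧ u.2.val = S.lev β ∧ S.it X ≤ β ∧ β ≤ S.ib X ∧
          S.ib X = d ∧ d < k ∧ k ≤ S.m ∧
          AgOut (S.lev (S.it X)) (S.lev k) a.1 u.1 ∧
          (∀ j, j < S.nb X → bit a.1 (S.rb (S.tw X + j)) = bit u.1 (S.lev (S.zs X) + j))})
        ?_ ?_ ?_
      · exact S.CNscale β a.1 (fun i => β - (csm S.g + 12) * S.h i) (fun _ => k)
      · intro Y _
        refine CN.enc_set (B := {X | X ∈ S.cores ∧ S.grid X.i d ∧ d ≤ S.m ∧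
          d ≤ (d - (csm S.g + 12 + tau S.g) * S.h X.i) + cR S.g * S.h X.i ∧
          d - (csm S.g + 12 + tau S.g) * S.h X.i ≤ X.s ∧ X.e ≤ d ∧
          AgOut (S.lev (d - (csm S.g + 12 + tau S.g) * S.h X.i)) (S.lev d)
            (wr (S.lev d) n a.1 Y.b) X.b})
          (fun X => {u | S.inZ X u.1 ∧ u.2.val = S.lev β ∧
            (∀ j, j < S.nb X → bit a.1 (S.rb (S.tw X + j)) = bit u.1 (S.lev (S.zs X) + j))})
          ?_ ?_ ?_
        · exact S.CNscale d (wr (S.lev d) n a.1 Y.b)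
            (fun i => d - (csm S.g + 12 + tau S.g) * S.h i) (fun _ => d)
        · intro X _
          refine CN.enc_one ?_
          rintro u ⟨h1, h2, h3⟩ v ⟨h1', h2', h3'⟩
          refine node_ext (S.CNrow h1 h1' fun j hj => ?_) (h2.trans h2'.symm)
          rw [← h3 j hj, ← h3' j hj]
        · rintro u ⟨X, hX, hz, hlow, hul, hβ1, hβ2, hib, hdk, hkm, hag, hrec⟩
          refine ⟨X, ?_, hz, hul, hrec⟩
          have hza := S.zone_arith hX
          have hlt := S.core_lt X hX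
          have hg := S.grid_ib hX (by omega)
          rw [hib] at hg
          have hcR : cR S.g * S.h X.i = 8 * (cbg S.g * S.h X.i) := by unfold cR; ring
          have hcb := S.cbg_mul X.i
          have hmul : (csm S.g + 12 + tau S.g) * S.h X.i =
            csm S.g * S.h X.i + 12 * S.h X.i + tau S.g * S.h X.i := by ring
          have hp : d - (csm S.g + 12 + tau S.g) * S.h X.i ≤ S.it X := by omega
          refine ⟨hX, hg, by omega, by omega, by omega, by omega, ?_⟩
          have l1 := S.lev_mono hp (by omega)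
          have l2 := S.lev_mono (k := S.it X) (l := S.zs X) (by omega) (by omega)
          have l3 := S.lev_mono (k := S.it X) (l := d) (by omega) (by omega)
          have l4 := S.lev_mono (k := β) (l := d) (by omega) (by omega)
          have l5 := S.lev_mono (k := S.ze X) (l := d) (by omega) (by omega)
          intro j hj
          rcases hj with hj | hj
          · rw [wr_out _ _ j (Or.inl (by omega)), hag j (Or.inl (by omega))]
            exact hz j (Or.inl (by omega))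
          · rw [wr_in _ _ j hj j.isLt, ← hlow.2.2.2 j (by omega)]
            exact hz j (Or.inr (by omega))
      · rintro u ⟨X, hX, Y, hY, hXY, hz, hlow, hul, hβ1, hβ2, hib, hdk, hkβ, hkm, hag, hrec⟩
        refine ⟨Y, ?_, X, hX, hz, hlow, hul, hβ1, hβ2, hib, hdk, hkm, hag, hrec⟩
        obtain ⟨h1, h2, h3, h4⟩ := hlow
        obtain ⟨z1, z2, z3⟩ := S.zone_len hY
        have hze := (S.ze_eq hY h2).1
        have hza := S.zone_arith hY
        have hzx := S.zone_arith hX
        have hlt := S.core_lt Y hY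
        have hg : S.grid Y.i β := by
          rcases h1 with h1 | h1
          · rw [h1]; exact S.core_e_grid hY h2
          · rw [h1]; exact S.grid_ze hY h2
        have hb1 : β ≤ S.ze Y := by rcases h1 with h1 | h1 <;> omega
        have hb2 : Y.e ≤ β := by rcases h1 with h1 | h1 <;> omega
        have hcR : cR S.g * S.h Y.i = 8 * (cbg S.g * S.h Y.i) := by unfold cR; ring
        have hcb := S.cbg_mul Y.i
        have hct := S.csm_lt_tau Y.i
        have hmul : (csm S.g + 12) * S.h Y.i = csm S.g * S.h Y.i + 12 * S.h Y.i := Nat.add_mul _ _ _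
        have hhx := S.h_lt hXY
        have hmx : (csm S.g + 12 + tau S.g) * S.h X.i =
            csm S.g * S.h X.i + 12 * S.h X.i + tau S.g * S.h X.i := by ring
        have hcx := S.cbg_mul X.i
        have hcx' : 16 * cbg S.g * S.h X.i = 16 * (cbg S.g * S.h X.i) := by ring
        have hp : β - (csm S.g + 12) * S.h Y.i ≤ S.zs Y := by omega
        have hp2 : β - (csm S.g + 12) * S.h Y.i ≤ S.it X := by omega
        refine ⟨hY, hg, hkm, by omega, by omega, by omega, ?_⟩
        have l1 := S.lev_mono hp (by omega)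
        have l2 := S.lev_mono (k := β) (l := k) (by omega) hkm
        have l3 := S.lev_mono hp2 (by omega)
        intro j hj
        rcases hj with hj | hj
        · rw [hag j (Or.inl (by omega))]
          exact h3 j (Or.inl (by omega))
        · rw [hag j (Or.inr hj)]
          exact h4 j (by omega)
    · rintro u ⟨X, hX, Y, hY, hXY, hz, ⟨β', hs1, hs2, hs3, hs4⟩, β, hlow, hul, hβ1, hβ2, k', hk1,
        hk2, hkm, hak, hag, hsg, hrec⟩
      have e := hk k' hkm hak
      subst e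
      have e2 := hd (S.ib X) hk1 hsg
      have hza := S.zone_arith hX
      have e3 : β' = β := S.lev_inj (by omega) (by omega) (hs4.symm.trans hul)
      subst e3
      refine ⟨β', ⟨X.i, ?_, hs3, by omega, by omega⟩, X, hX, Y, hY, hXY, hz, hlow, hul, hβ1, hβ2,
        e2, by omega, hk2, hkm, hag, hrec⟩
      rw [← e2]
      exact S.grid_ib hX (by omega)
  refine h1.trans ?_
  rw [Nat.mul_one]
  have h2 : (csm S.g + 12 + tau S.g + 1) * (S.K * S.K) ≤
      4 * S.K * S.K * (2 * (csm S.g + 14 + tau S.g) + 8) := by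
    calc (csm S.g + 12 + tau S.g + 1) * (S.K * S.K)
        ≤ (2 * (csm S.g + 14 + tau S.g) + 8) * (4 * (S.K * S.K)) :=
          Nat.mul_le_mul (by omega) (by omega)
      _ = _ := by ring
  exact_mod_cast h2

end Sys

end Pool.Agent.Bfly
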