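import Pool.Agent.Lib.MP_d71b33_lc_h91.RA
import Pool.Agent.Lib.MP_d71b33_lc_h91.SysDefs
import Pool.Agent.Lib.MP_d71b33_lc_h28.GR

/-!
# Counting lemmas for the loads (MP_d71b33_lc)
-/

set_option autoImplicit false

namespace Pool.Agent.Bfly

open Set

variable {n : ℕ}

namespace CN

theorem enc_fin {α β : Type*} (T : Finset β) (A : β → Set α) (K : ℕ∞)
    (h : ∀ t ∈ T, (A t).encard ≤ K) : (⋃ t ∈ T, A t).encard ≤ T.card * K := by
  classical
  induction T using Finset.induction_on with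
  | empty => simp
  | insert a T ha ih =>
    rw [Finset.set_biUnion_insert, Finset.card_insert_of_notMem ha]
    refine (Set.encard_union_le _ _).trans ?_
    have h1 := h a (Finset.mem_insert_self _ _)
    have h2 := ih fun t ht => h t (Finset.mem_insert_of_mem ht)
    calc (A a).encard + (⋃ t ∈ T, A t).encard ≤ K + T.card * K := add_le_add h1 h2
      _ = ((T.card + 1 : ℕ) : ℕ∞) * K := by push_cast; ring

/-- counting in two steps -/
theorem enc_set {α β : Type*} {B : Set β} (A : β → Set α) {C : Set α} {K1 K2 : ℕ}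
    (hB : B.encard ≤ K1) (hA : ∀ t ∈ B, (A t).encard ≤ K2) (hC : ∀ u ∈ C, ∃ t ∈ B, u ∈ A t) :
    C.encard ≤ ((K1 * K2 : ℕ) : ℕ∞) := by
  have hfin : B.Finite := Set.finite_of_encard_le_coe hB
  have h1 : C ⊆ ⋃ t ∈ hfin.toFinset, A t := by
    intro u hu
    obtain ⟨t, ht, h⟩ := hC u hu
    exact Set.mem_biUnion (hfin.mem_toFinset.2 ht) h
  have h2 := enc_fin hfin.toFinset A K2 fun t ht => hA t (hfin.mem_toFinset.1 ht)
  have h3 : (hfin.toFinset.card : ℕ∞) ≤ K1 := by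
    rw [← Set.encard_coe_eq_coe_finsetCard, hfin.coe_toFinset]
    exact hB
  calc C.encard ≤ _ := Set.encard_le_encard h1
    _ ≤ _ := h2
    _ ≤ (K1 : ℕ∞) * K2 := by gcongr
    _ = _ := by push_cast; rfl

theorem enc_one {α : Type*} {A : Set α} (h : ∀ a ∈ A, ∀ b ∈ A, a = b) :
    A.encard ≤ ((1 : ℕ) : ℕ∞) := by
  rw [Nat.cast_one, Set.encard_le_one_iff]
  exact fun a b ha hb => h a ha b hb

theorem enc_finset {α : Type*} {A : Set α} (T : Finset α) {N : ℕ} (hT : T.card ≤ N)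
    (h : ∀ a ∈ A, a ∈ T) : A.encard ≤ (N : ℕ∞) := by
  calc A.encard ≤ (T : Set α).encard := Set.encard_le_encard h
    _ = T.card := Set.encard_coe_eq_coe_finsetCard T
    _ ≤ N := by exact_mod_cast hT

/-- special levels -/
theorem spec_enc (h o lo hi N : ℕ) (hh : 0 < h) (hhi : hi ≤ lo + N * h) :
    {β | lo ≤ β ∧ β ≤ hi ∧ h ∣ β + o}.encard ≤ ((N + 1 : ℕ) : ℕ∞) := by
  have h1 : {β | lo ≤ β ∧ β ≤ hi ∧ h ∣ β + o}.encard ≤
      ((Finset.Icc ((lo + o) / h) ((lo + o) / h + N) : Finset ℕ) : Set ℕ).encard := by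
    refine Set.encard_le_encard_of_injOn (f := fun β => (β + o) / h) ?_ ?_
    · rintro β ⟨h1, h2, t, ht⟩
      have e : (β + o) / h = t := by rw [ht]; exact Nat.mul_div_cancel_left t hh
      show (β + o) / h ∈ ((Finset.Icc ((lo + o) / h) ((lo + o) / h + N) : Finset ℕ) : Set ℕ)
      rw [Finset.coe_Icc, Set.mem_Icc, e]
      constructor
      · calc (lo + o) / h ≤ (β + o) / h := Nat.div_le_div_right (by omega)
          _ = t := e
      · have h3 : (lo + o) < h * ((lo + o) / h + 1) := Nat.lt_mul_div_succ _ hh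
        have h4 : h * t < h * ((lo + o) / h + 1 + N) := by
          have e1 : h * ((lo + o) / h + 1 + N) = h * ((lo + o) / h + 1) + N * h := by ring
          rw [e1, ← ht]
          omega
        have h5 := Nat.lt_of_mul_lt_mul_left h4
        omega
    · rintro β ⟨-, -, t, ht⟩ β' ⟨-, -, t', ht'⟩ h5
      have e : (β + o) / h = t := by rw [ht]; exact Nat.mul_div_cancel_left t hh
      have e' : (β' + o) / h = t' := by rw [ht']; exact Nat.mul_div_cancel_left t' hh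
      have h6 : t = t' := by rw [← e, ← e']; exact h5
      rw [← h6] at ht'
      omega
  refine h1.trans ?_
  rw [Set.encard_coe_eq_coe_finsetCard, Nat.card_Icc]
  exact_mod_cast (by omega : (lo + o) / h + N + 1 - (lo + o) / h ≤ N + 1)

end CN

namespace Sys

variable (S : Sys n)

/-- length of the zones with T-window -/
def CNN (g : ℕ) : ℕ := csm g + 12 + tau g

/-- cores of the scale of a grid point in a window -/
theorem CNscale (β : ℕ) (x : Rw n) (p q : ℕ → ℕ) :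
    {Y | Y ∈ S.cores ∧ S.grid Y.i β ∧ q Y.i ≤ S.m ∧ q Y.i ≤ p Y.i + cR S.g * S.h Y.i ∧
      p Y.i ≤ Y.s ∧ Y.e ≤ q Y.i ∧ AgOut (S.lev (p Y.i)) (S.lev (q Y.i)) x Y.b}.encard ≤
      (S.K : ℕ∞) := by
  rcases Set.eq_empty_or_nonempty {Y | Y ∈ S.cores ∧ S.grid Y.i β ∧ q Y.i ≤ S.m ∧
      q Y.i ≤ p Y.i + cR S.g * S.h Y.i ∧
      p Y.i ≤ Y.s ∧ Y.e ≤ q Y.i ∧ AgOut (S.lev (p Y.i)) (S.lev (q Y.i)) x Y.b} with h | h
  · rw [h]; simp
  · obtain ⟨Y0, h1, h2, h3, h4, -⟩ := h
    refine le_trans (Set.encard_le_encard ?_) (S.sparse Y0.i (p Y0.i) (q Y0.i) x h3 h4)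
    rintro Y ⟨k1, k2, k3, k4, k5, k6, k7⟩
    have e : Y.i = Y0.i := S.grid_unique k2 h2
    rw [e] at k5 k6 k7
    exact ⟨k1, e, k5, k6, k7⟩

/-- special levels near a grid point, of the scale of this grid point -/
theorem CNspec (d N : ℕ) :
    {β | ∃ i, S.grid i d ∧ S.h i ∣ β + S.o ∧ β ≤ d ∧ d ≤ β + N * S.h i}.encard ≤
      ((N + 1 : ℕ) : ℕ∞) := by
  rcases Set.eq_empty_or_nonempty
    {β | ∃ i, S.grid i d ∧ S.h i ∣ β + S.o ∧ β ≤ d ∧ d ≤ β + N * S.h i} with h | h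
  · rw [h]; simp
  · obtain ⟨β0, i, h1, -⟩ := h
    refine le_trans (Set.encard_le_encard ?_)
      (CN.spec_enc (S.h i) S.o (d - N * S.h i) d N (S.h_pos i) (by omega))
    rintro β ⟨i', k1, k2, k3, k4⟩
    have e : i' = i := S.grid_unique k1 h1
    rw [e] at k2 k4
    exact ⟨by omega, k3, k2⟩

theorem CNsgD_unique {p p' k : ℕ} {x : Rw n} (h : S.sgD p k x) (h' : S.sgD p' k x) (hp : p < k)
    (hp' : p' < k) : p = p' := by
  rcases lt_trichotomy p p' with h1 | h1 | h1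
  · have e1 := h p' h1.le hp'
    have e2 := h' p' le_rfl hp'
    rw [e1] at e2
    simp at e2
    omega
  · exact h1
  · have e1 := h' p h1.le hp
    have e2 := h p le_rfl hp
    rw [e1] at e2
    simp at e2
    omega

theorem CNsgU_unique {k q q' : ℕ} {x : Rw n} (h : S.sgU k q x) (h' : S.sgU k q' x) (hq : k < q)
    (hq' : k < q') : q = q' := by
  rcases lt_trichotomy q q' with h1 | h1 | h1
  · have e1 := h (q - 1) (by omega) (by omega)
    have e2 := h' (q - 1) (by omega) (by omega)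
    rw [e1] at e2
    simp at e2
    omega
  · exact h1
  · have e1 := h (q' - 1) (by omega) (by omega)
    have e2 := h' (q' - 1) (by omega) (by omega)
    rw [e1] at e2
    simp at e2
    omega

/-- the marker of a run downwards -/
theorem CNexD (k : ℕ) (x : Rw n) : ∃ d, ∀ p, p < k → S.sgD p k x → p = d := by
  by_cases h : ∃ p, p < k ∧ S.sgD p k x
  · obtain ⟨p, h1, h2⟩ := h
    exact ⟨p, fun p' h1' h2' => S.CNsgD_unique h2' h2 h1' h1⟩
  · exact ⟨0, fun p h1 h2 => absurd ⟨p, h1, h2⟩ h⟩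

/-- the marker of a run upwards -/
theorem CNexU (k : ℕ) (x : Rw n) : ∃ d, ∀ q, k < q → S.sgU k q x → q = d := by
  by_cases h : ∃ q, k < q ∧ S.sgU k q x
  · obtain ⟨p, h1, h2⟩ := h
    exact ⟨p, fun p' h1' h2' => S.CNsgU_unique h2' h2 h1' h1⟩
  · exact ⟨0, fun p h1 h2 => absurd ⟨p, h1, h2⟩ h⟩

/-- a row of the zone is determined by its bits in the zone -/
theorem CNrow {Q : Core n} {w w' : Rw n} (hw : S.inZ Q w) (hw' : S.inZ Q w')
    (h : ∀ j, j < S.nb Q → bit w (S.lev (S.zs Q) + j) = bit w' (S.lev (S.zs Q) + j)) : w = w' := by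
  refine AgOut.ext (hw.trans hw'.symm) fun j h1 h2 => ?_
  have h3 := h (j.val - S.lev (S.zs Q)) (by unfold Sys.nb; omega)
  rw [show S.lev (S.zs Q) + (j.val - S.lev (S.zs Q)) = j.val by omega, bit_val, bit_val] at h3
  exact h3

/-- the level of a node which is a digit boundary -/
theorem CNlev (a : Node n) : ∃ k0, ∀ k, k ≤ S.m → a.2.val = S.lev k → k = k0 := by
  by_cases h : ∃ k, k ≤ S.m ∧ a.2.val = S.lev k
  · obtain ⟨k0, h1, h2⟩ := h
    exact ⟨k0, fun k h3 h4 => S.lev_inj h3 h1 (h4.symm.trans h2)⟩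
  · exact ⟨0, fun k h1 h2 => absurd ⟨k, h1, h2⟩ h⟩

end Sys

end Pool.Agent.Bfly
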