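import Pool.Agent.Lib.MP_d71b33_lc_h17.CVL2

/-!
# Load of the T-structures (MP_d71b33_lc, task RL)
-/

set_option autoImplicit false

namespace Pool.Agent.Bfly

open Set

variable {n : ℕ}

namespace Sys

variable (S : Sys n)

/-- levels of the copies and relays of a T-structure at the boundary `k` -/
theorem CNlevels {Q : Core n} (hQ : Q ∈ S.cores) (k : ℕ) :
    {l | (∃ β, (S.it Q ≤ β ∧ β ≤ S.ib Q ∧ S.h Q.i ∣ β + S.o) ∧ l = S.lev β) ∨
      (k ≤ S.tl Q l + 1 ∧ S.tl Q l ≤ k + 1 ∧ S.lev (S.zs Q) ≤ l)}.encard ≤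
      ((csm S.g + 12 + tau S.g + 1 + 3 : ℕ) : ℕ∞) := by
  have h1 : {l | ∃ β, (S.it Q ≤ β ∧ β ≤ S.ib Q ∧ S.h Q.i ∣ β + S.o) ∧ l = S.lev β}.encard ≤
      ((csm S.g + 12 + tau S.g + 1 : ℕ) : ℕ∞) := by
    refine le_trans ?_ (S.CNspecQ hQ)
    have e : {l | ∃ β, (S.it Q ≤ β ∧ β ≤ S.ib Q ∧ S.h Q.i ∣ β + S.o) ∧ l = S.lev β} =
        S.lev '' {β | S.it Q ≤ β ∧ β ≤ S.ib Q ∧ S.h Q.i ∣ β + S.o} := by
      ext l
      constructor
      · rintro ⟨β, h, rfl⟩; exact ⟨β, h, rfl⟩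
      · rintro ⟨β, h, rfl⟩; exact ⟨β, h, rfl⟩
    rw [e]
    exact Set.encard_image_le _ _
  have h2 : {l | k ≤ S.tl Q l + 1 ∧ S.tl Q l ≤ k + 1 ∧ S.lev (S.zs Q) ≤ l}.encard ≤
      ((3 : ℕ) : ℕ∞) := by
    have h3 : {l | k ≤ S.tl Q l + 1 ∧ S.tl Q l ≤ k + 1 ∧ S.lev (S.zs Q) ≤ l}.encard ≤
        (({k - 1, k, k + 1} : Finset ℕ) : Set ℕ).encard := by
      refine Set.encard_le_encard_of_injOn (f := S.tl Q) ?_ ?_
      · rintro l ⟨h1, h2, -⟩
        show S.tl Q l ∈ (({k - 1, k, k + 1} : Finset ℕ) : Set ℕ)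
        rw [Finset.mem_coe, Finset.mem_insert, Finset.mem_insert, Finset.mem_singleton]
        omega
      · rintro l ⟨-, -, h1⟩ l' ⟨-, -, h1'⟩ h
        unfold Sys.tl at h
        omega
    refine h3.trans ?_
    rw [Set.encard_coe_eq_coe_finsetCard]
    exact_mod_cast Finset.card_le_three
  have e : {l | (∃ β, (S.it Q ≤ β ∧ β ≤ S.ib Q ∧ S.h Q.i ∣ β + S.o) ∧ l = S.lev β) ∨
      (k ≤ S.tl Q l + 1 ∧ S.tl Q l ≤ k + 1 ∧ S.lev (S.zs Q) ≤ l)} =
      {l | ∃ β, (S.it Q ≤ β ∧ β ≤ S.ib Q ∧ S.h Q.i ∣ β + S.o) ∧ l = S.lev β} ∪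
      {l | k ≤ S.tl Q l + 1 ∧ S.tl Q l ≤ k + 1 ∧ S.lev (S.zs Q) ≤ l} := rfl
  rw [e]
  refine (Set.encard_union_le _ _).trans ?_
  refine (add_le_add h1 h2).trans ?_
  exact_mod_cast le_rfl

theorem load_R (a : Node n) :
    {c : Core n × Node n | c.1 ∈ S.cores ∧ S.inZ c.1 c.2.1 ∧ ∃ k, S.it c.1 ≤ k ∧ k ≤ S.ib c.1 ∧
      a.2.val = S.lev k ∧ S.InR c.1 c.2.1 a.1 ∧
      (S.special c.1 c.2 ∨ (k ≤ S.tl c.1 c.2.2.val + 1 ∧ S.tl c.1 c.2.2.val ≤ k + 1 ∧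
        S.lev (S.zs c.1) ≤ c.2.2.val ∧ c.2.2.val ≤ S.lev (S.ze c.1)))}.encard ≤
      KR S.g S.K := by
  obtain ⟨k, hk⟩ := S.CNlev a
  obtain ⟨d, hd⟩ := S.CNexD k a.1
  obtain ⟨d', hd'⟩ := S.CNexU k a.1
  -- the condition with all data
  set P : Core n → Node n → Prop := fun Q u => Q ∈ S.cores ∧ S.inZ Q u.1 ∧ S.it Q ≤ k ∧
    k ≤ S.ib Q ∧ S.InR Q u.1 a.1 ∧ (S.special Q u ∨ (k ≤ S.tl Q u.2.val + 1 ∧
      S.tl Q u.2.val ≤ k + 1 ∧ S.lev (S.zs Q) ≤ u.2.val ∧ u.2.val ≤ S.lev (S.ze Q))) with hP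
  -- for one core
  have hQ1 : ∀ Q : Core n, {c : Core n × Node n | c.1 = Q ∧ P Q c.2}.encard ≤
      (((csm S.g + 12 + tau S.g + 1 + 3) * 1 : ℕ) : ℕ∞) := by
    intro Q
    by_cases hQ : Q ∈ S.cores
    · refine CN.enc_set (fun l => {c : Core n × Node n | c.1 = Q ∧ c.2.2.val = l ∧
        S.inZ Q c.2.1 ∧ S.InR Q c.2.1 a.1}) (S.CNlevels hQ k) ?_ ?_
      · intro l _
        refine CN.enc_one ?_
        rintro ⟨Q1, u⟩ ⟨h1, h2, h3, h4⟩ ⟨Q2, v⟩ ⟨h1', h2', h3', h4'⟩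
        have e1 : Q1 = Q2 := h1.trans h1'.symm
        have e2 : u = v := node_ext (S.CNrow h3 h3' fun j hj => by
          rw [← h4.2.2 j hj, ← h4'.2.2 j hj]) (h2.trans h2'.symm)
        rw [e1, e2]
      · rintro ⟨Q1, u⟩ ⟨h1, h2, h3, h4, h5, h6, h7⟩
        refine ⟨u.2.val, ?_, h1, rfl, h3, h6⟩
        rcases h7 with ⟨β, k1, k2, k3, k4⟩ | ⟨k1, k2, k3, k4⟩
        · exact Or.inl ⟨β, ⟨k1, k2, k3⟩, k4⟩
        · exact Or.inr ⟨k1, k2, k3⟩
    · have : {c : Core n × Node n | c.1 = Q ∧ P Q c.2} = ∅ := by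
        rw [Set.eq_empty_iff_forall_notMem]
        rintro c ⟨-, h, -⟩
        exact hQ h
      rw [this]; simp
  -- cores whose T-structure ends at `v`
  have hT : ∀ v : ℕ, {c : Core n × Node n | S.ty c.1 = true ∧ S.ib c.1 = v ∧ P c.1 c.2}.encard ≤
      ((S.K * ((csm S.g + 12 + tau S.g + 1 + 3) * 1) : ℕ) : ℕ∞) := by
    intro v
    refine CN.enc_set (B := {Q | Q ∈ S.cores ∧ S.grid Q.i v ∧ v ≤ S.m ∧
      v ≤ (v - (csm S.g + 12 + tau S.g) * S.h Q.i) + cR S.g * S.h Q.i ∧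
      v - (csm S.g + 12 + tau S.g) * S.h Q.i ≤ Q.s ∧ Q.e ≤ v ∧
      AgOut (S.lev (v - (csm S.g + 12 + tau S.g) * S.h Q.i)) (S.lev v) a.1 Q.b})
      (fun Q => {c : Core n × Node n | c.1 = Q ∧ P Q c.2}) ?_ (fun Q _ => hQ1 Q) ?_
    · exact S.CNscale v a.1 (fun i => v - (csm S.g + 12 + tau S.g) * S.h i) (fun _ => v)
    · rintro ⟨Q, u⟩ ⟨h1, h2, h3⟩
      refine ⟨Q, ?_, rfl, h3⟩
      obtain ⟨hQ, hz, hk1, hk2, hR, -⟩ := h3
      simp only at h1 h2 hQ hz hk1 hk2 hR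
      have hza := S.zone_arith hQ
      have hlt := S.core_lt Q hQ
      have hm := S.ib_lt_m hQ h1
      have hg := S.grid_ib hQ (by omega)
      rw [h2] at hg
      have hcR : cR S.g * S.h Q.i = 8 * (cbg S.g * S.h Q.i) := by unfold cR; ring
      have hcb := S.cbg_mul Q.i
      have hmul : (csm S.g + 12 + tau S.g) * S.h Q.i =
        csm S.g * S.h Q.i + 12 * S.h Q.i + tau S.g * S.h Q.i := by ring
      have hp : v - (csm S.g + 12 + tau S.g) * S.h Q.i ≤ S.it Q := by omega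
      refine ⟨hQ, hg, by omega, by omega, by omega, by omega, ?_⟩
      refine AgOut.trans (hR.1.mono (S.lev_mono hp (by omega)) (S.lev_mono (by omega) (by omega)))
        (hz.mono ?_ ?_)
      · exact S.lev_mono (by omega) (by omega)
      · exact S.lev_mono (by omega) (by omega)
  -- cores whose T-structure begins at `v`
  have hF : ∀ v : ℕ, {c : Core n × Node n | S.ty c.1 = false ∧ S.it c.1 = v ∧ P c.1 c.2}.encard ≤
      ((S.K * ((csm S.g + 12 + tau S.g + 1 + 3) * 1) : ℕ) : ℕ∞) := by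
    intro v
    refine CN.enc_set (B := {Q | Q ∈ S.cores ∧ S.grid Q.i v ∧
      min S.m (v + (csm S.g + 12 + tau S.g) * S.h Q.i) ≤ S.m ∧
      min S.m (v + (csm S.g + 12 + tau S.g) * S.h Q.i) ≤ v + cR S.g * S.h Q.i ∧
      v ≤ Q.s ∧ Q.e ≤ min S.m (v + (csm S.g + 12 + tau S.g) * S.h Q.i) ∧
      AgOut (S.lev v) (S.lev (min S.m (v + (csm S.g + 12 + tau S.g) * S.h Q.i))) a.1 Q.b})
      (fun Q => {c : Core n × Node n | c.1 = Q ∧ P Q c.2}) ?_ (fun Q _ => hQ1 Q) ?_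
    · exact S.CNscale v a.1 (fun _ => v)
        (fun i => min S.m (v + (csm S.g + 12 + tau S.g) * S.h i))
    · rintro ⟨Q, u⟩ ⟨h1, h2, h3⟩
      refine ⟨Q, ?_, rfl, h3⟩
      obtain ⟨hQ, hz, hk1, hk2, hR, -⟩ := h3
      simp only at h1 h2 hQ hz hk1 hk2 hR
      have hza := S.zone_arith hQ
      have hlt := S.core_lt Q hQ
      have hm := S.it_pos hQ h1
      have hg := S.grid_it hQ (by omega)
      rw [h2] at hg
      have hcR : cR S.g * S.h Q.i = 8 * (cbg S.g * S.h Q.i) := by unfold cR; ring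
      have hcb := S.cbg_mul Q.i
      have hmul : (csm S.g + 12 + tau S.g) * S.h Q.i =
        csm S.g * S.h Q.i + 12 * S.h Q.i + tau S.g * S.h Q.i := by ring
      have hp : S.ib Q ≤ min S.m (v + (csm S.g + 12 + tau S.g) * S.h Q.i) :=
        le_min (by omega) (by omega)
      have hmin := min_le_right S.m (v + (csm S.g + 12 + tau S.g) * S.h Q.i)
      have hmin' := min_le_left S.m (v + (csm S.g + 12 + tau S.g) * S.h Q.i)
      refine ⟨hQ, hg, hmin', by omega, by omega, by omega, ?_⟩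
      refine AgOut.trans (hR.1.mono (S.lev_mono (by omega) (by omega)) (S.lev_mono hp hmin'))
        (hz.mono ?_ ?_)
      · exact S.lev_mono (by omega) (by omega)
      · exact S.lev_mono (by omega) hmin'
  have h1 := CN.enc_set (B := {x : Bool × ℕ | x = (true, k) ∨ x = (true, d') ∨ x = (false, k) ∨
      x = (false, d)}) (K1 := 4) (K2 := S.K * ((csm S.g + 12 + tau S.g + 1 + 3) * 1))
      (C := {c : Core n × Node n | c.1 ∈ S.cores ∧ S.inZ c.1 c.2.1 ∧ ∃ k, S.it c.1 ≤ k ∧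
        k ≤ S.ib c.1 ∧ a.2.val = S.lev k ∧ S.InR c.1 c.2.1 a.1 ∧
        (S.special c.1 c.2 ∨ (k ≤ S.tl c.1 c.2.2.val + 1 ∧ S.tl c.1 c.2.2.val ≤ k + 1 ∧
          S.lev (S.zs c.1) ≤ c.2.2.val ∧ c.2.2.val ≤ S.lev (S.ze c.1)))})
      (fun x => {c : Core n × Node n | S.ty c.1 = x.1 ∧
        (if x.1 then S.ib c.1 = x.2 else S.it c.1 = x.2) ∧ P c.1 c.2}) ?_ ?_ ?_
  · refine h1.trans ?_
    unfold KR
    rw [Nat.mul_one]
    have h2 : 4 * (S.K * (csm S.g + 12 + tau S.g + 1 + 3)) ≤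
        4 * S.K * (2 * (csm S.g + 14 + tau S.g) + 8) := by
      calc 4 * (S.K * (csm S.g + 12 + tau S.g + 1 + 3))
          = 4 * S.K * (csm S.g + 12 + tau S.g + 1 + 3) := by ring
        _ ≤ _ := Nat.mul_le_mul_left _ (by omega)
    exact_mod_cast h2
  · refine CN.enc_finset {(true, k), (true, d'), (false, k), (false, d)} Finset.card_le_four
      fun x hx => ?_
    rcases hx with h | h | h | h <;> simp [h]
  · rintro ⟨b, v⟩ _
    cases b
    · have := hF v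
      simpa using this
    · have := hT v
      simpa using this
  · rintro ⟨Q, u⟩ ⟨hQ, hz, k', hk1, hk2, hak, hR, hl⟩
    simp only at hQ hz hk1 hk2 hR hl
    have hza := S.zone_arith hQ
    have e := hk k' (by omega) hak
    subst e
    have hPP : P Q u := ⟨hQ, hz, hk1, hk2, hR, hl⟩
    rcases Bool.eq_false_or_eq_true (S.ty Q) with ht | ht
    · refine ⟨(true, S.ib Q), ?_, ht, by simp, hPP⟩
      have hmk := S.mkd_mem hQ
      have hsg : S.sgU k' (S.ib Q) a.1 := by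
        intro e h3 h4
        rw [hR.2.1 e (by omega) h4, S.mkd_true ht]
        congr 1
        exact propext (by omega)
      rcases Nat.lt_or_ge k' (S.ib Q) with h | h
      · right; left
        rw [hd' _ h hsg]
      · left
        rw [show S.ib Q = k' by omega]
    · refine ⟨(false, S.it Q), ?_, ht, by simp, hPP⟩
      have hsg : S.sgD (S.it Q) k' a.1 := by
        intro e h3 h4
        rw [hR.2.1 e h3 (by omega), S.mkd_false ht]
      rcases Nat.lt_or_ge (S.it Q) k' with h | h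
      · right; right; right
        rw [hd _ h hsg]
      · right; right; left
        rw [show S.it Q = k' by omega]

end Sys

end Pool.Agent.Bfly
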